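import Pool.Agent.Run7.h851.T.Iface

/-!
# Pieces T-A1 and T-A2 of project T (helper851): the mixed determinants with three kinds of columns in other bases
-/

set_option autoImplicit false

open Polynomial Pool.Agent.H337R2

namespace Pool.Agent.Run7.h851.T

noncomputable section

/-- the first column of the block of the column `j` -/
def TA_off (m j : ℕ) : ℕ := if j < m then 0 else if j < 2 * m then m else 2 * m

/-- the functional of the column `j` -/
def TA_L {K : Type} [CommRing K] [Algebra ℚ K] (A B C' : ℚ[X] →ₗ[ℚ] K) (m j : ℕ) : ℚ[X] →ₗ[ℚ] K :=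
  if j < m then A else if j < 2 * m then B else C'

lemma TA_blk {K : Type} [AddCommMonoid K] (m o : ℕ) (ho : o = 0 ∨ o = m ∨ o = 2 * m) (f : ℕ → K) :
    ∑ l ∈ Finset.range (3 * m), (if TA_off m l = o then f (l - o) else 0) = ∑ k ∈ Finset.range m, f k := by
  rcases Nat.eq_zero_or_pos m with hm | hm
  · subst hm
    simp
  rw [← Finset.sum_filter]
  have h1 : (Finset.range (3 * m)).filter (fun l => TA_off m l = o) = Finset.Ico o (o + m) := by
    ext l
    rw [Finset.mem_filter, Finset.mem_range, Finset.mem_Ico]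
    unfold TA_off
    split_ifs <;> omega
  rw [h1, Finset.sum_Ico_eq_sum_range, Nat.add_sub_cancel_left]
  refine Finset.sum_congr rfl fun k _ => ?_
  rw [Nat.add_sub_cancel_left]

lemma TA_expand (m : ℕ) (P : ℚ[X]) (h : P.natDegree < m) :
    P = ∑ k ∈ Finset.range m, (P.coeff k) • (X ^ k : ℚ[X]) := by
  conv_lhs => rw [P.as_sum_range' m h]
  apply Finset.sum_congr rfl
  intro k _
  rw [← Polynomial.C_mul_X_pow_eq_monomial, Polynomial.smul_eq_C_mul]

lemma TA_left {K : Type} [CommRing K] [Algebra ℚ K] (A : ℚ[X] →ₗ[ℚ] K) (m : ℕ) (P R : ℚ[X])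
    (h : P.natDegree < m) :
    A (P * R) = ∑ k : Fin m, algebraMap ℚ K (P.coeff k.1) * A (X ^ k.1 * R) := by
  conv_lhs => rw [TA_expand m P h, Finset.sum_mul, map_sum]
  rw [Fin.sum_univ_eq_sum_range (fun k => algebraMap ℚ K (P.coeff k) * A (X ^ k * R)) m]
  apply Finset.sum_congr rfl
  intro k _
  rw [smul_mul_assoc, map_smul, Algebra.smul_def]

lemma TA_right {K : Type} [CommRing K] [Algebra ℚ K] (A : ℚ[X] →ₗ[ℚ] K) (m : ℕ) (P R : ℚ[X])
    (h : P.natDegree < m) :
    A (R * P) = ∑ k ∈ Finset.range m, algebraMap ℚ K (P.coeff k) * A (R * X ^ k) := by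
  conv_lhs => rw [TA_expand m P h, Finset.mul_sum, map_sum]
  apply Finset.sum_congr rfl
  intro k _
  rw [mul_smul_comm, map_smul, Algebra.smul_def]

/-- the matrix of the monomials -/
def TA_T {K : Type} [CommRing K] [Algebra ℚ K] (A B C' : ℚ[X] →ₗ[ℚ] K) (m : ℕ) : Matrix (Fin (3 * m)) (Fin (3 * m)) K :=
  Matrix.of fun i j => TA_L A B C' m j.1 (X ^ (i.1 + (j.1 - TA_off m j.1)))

lemma TA_T_eq {K : Type} [CommRing K] [Algebra ℚ K] (A B C' : ℚ[X] →ₗ[ℚ] K) (m : ℕ) :
    TA_T A B C' m = Matrix.of fun i j : Fin (3 * m) =>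
      if j.1 < m then A (X ^ (i.1 + j.1)) else if j.1 < 2 * m then B (X ^ (i.1 + (j.1 - m)))
      else C' (X ^ (i.1 + (j.1 - 2 * m))) := by
  ext i j
  unfold TA_T TA_L TA_off
  simp only [Matrix.of_apply]
  split_ifs
  · rw [Nat.sub_zero]
  · rfl
  · rfl

/-- sums over one block -/
lemma TA_block {K : Type} [CommRing K] [Algebra ℚ K] (A B C' : ℚ[X] →ₗ[ℚ] K) (m o : ℕ)
    (ho : o = 0 ∨ o = m ∨ o = 2 * m) (L : ℚ[X] →ₗ[ℚ] K)
    (hL : ∀ l, l < 3 * m → TA_off m l = o → TA_L A B C' m l = L)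
    (R P : ℚ[X]) (hP : P.natDegree < m) :
    ∑ l : Fin (3 * m), TA_L A B C' m l.1 (R * X ^ (l.1 - TA_off m l.1)) *
      (if TA_off m l.1 = o then algebraMap ℚ K (P.coeff (l.1 - o)) else 0) = L (R * P) := by
  rw [Fin.sum_univ_eq_sum_range (fun l => TA_L A B C' m l (R * X ^ (l - TA_off m l)) *
      (if TA_off m l = o then algebraMap ℚ K (P.coeff (l - o)) else 0)) (3 * m), TA_right L m P R hP,
    ← TA_blk m o ho]
  refine Finset.sum_congr rfl fun l hl => ?_
  rw [Finset.mem_range] at hl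
  split_ifs with h
  · rw [hL l hl h, h, mul_comm]
  · rw [mul_zero]

/-- the general statement over a commutative `ℚ`-algebra -/
lemma TA_gen {K : Type} [CommRing K] [Algebra ℚ K] (A B C' : ℚ[X] →ₗ[ℚ] K) (m : ℕ)
    (Q P P' P'' : ℕ → ℚ[X])
    (hQ : ∀ i < 3 * m, (Q i).Monic ∧ (Q i).natDegree = i)
    (hP : ∀ i < m, (P i).Monic ∧ (P i).natDegree = i)
    (hP' : ∀ i < m, (P' i).Monic ∧ (P' i).natDegree = i)
    (hP'' : ∀ i < m, (P'' i).Monic ∧ (P'' i).natDegree = i) :
    (Matrix.of fun i j : Fin (3 * m) =>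
      if j.1 < m then A (Q i.1 * P j.1) else if j.1 < 2 * m then B (Q i.1 * P' (j.1 - m))
      else C' (Q i.1 * P'' (j.1 - 2 * m))).det =
    (Matrix.of fun i j : Fin (3 * m) =>
      if j.1 < m then A (X ^ (i.1 + j.1)) else if j.1 < 2 * m then B (X ^ (i.1 + (j.1 - m)))
      else C' (X ^ (i.1 + (j.1 - 2 * m)))).det := by
  obtain ⟨PP, hPP⟩ : ∃ PP : ℕ → ℚ[X], ∀ j, PP j = if j < m then P j else if j < 2 * m then P' (j - m)
    else P'' (j - 2 * m) := ⟨_, fun _ => rfl⟩
  have hPm : ∀ j < 3 * m, (PP j).Monic ∧ (PP j).natDegree = j - TA_off m j := by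
    intro j hj
    rw [hPP]
    unfold TA_off
    split_ifs with h1 h2
    · exact hP j h1
    · exact hP' _ (by omega)
    · exact hP'' _ (by omega)
  have hoff : ∀ j, j < 3 * m → TA_off m j ≤ j ∧ j < TA_off m j + m := by
    intro j hj
    unfold TA_off
    split_ifs <;> omega
  have hone : ∀ (F : ℕ → ℚ[X]) (i d : ℕ), (F i).Monic ∧ (F i).natDegree = d → (F i).coeff d = 1 := by
    intro F i d h
    have h3 := h.1
    rw [Polynomial.Monic, Polynomial.leadingCoeff, h.2] at h3
    exact h3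
  obtain ⟨U, hU⟩ : ∃ U : Matrix (Fin (3 * m)) (Fin (3 * m)) K, ∀ i k, U i k =
    algebraMap ℚ K ((Q i.1).coeff k.1) := ⟨_, fun _ _ => rfl⟩
  obtain ⟨W, hW⟩ : ∃ W : Matrix (Fin (3 * m)) (Fin (3 * m)) K, ∀ l j, W l j =
    if TA_off m l.1 = TA_off m j.1 then algebraMap ℚ K ((PP j.1).coeff (l.1 - TA_off m j.1)) else 0 :=
      ⟨_, fun _ _ => rfl⟩
  have hUdet : U.det = 1 := by
    rw [Matrix.det_of_isLowerTriangular]
    · apply Finset.prod_eq_one
      intro i _
      rw [hU, hone Q i.1 i.1 (hQ i.1 i.2), map_one]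
    · intro i j hij
      rw [hU, Polynomial.coeff_eq_zero_of_natDegree_lt, map_zero]
      rw [(hQ i.1 i.2).2]
      exact hij
  have hWdet : W.det = 1 := by
    rw [Matrix.det_of_isUpperTriangular]
    · apply Finset.prod_eq_one
      intro i _
      rw [hW, if_pos rfl, hone PP i.1 _ (hPm i.1 i.2), map_one]
    · intro l j hlj
      have hlj' : j.1 < l.1 := hlj
      rw [hW]
      split_ifs with h
      · rw [Polynomial.coeff_eq_zero_of_natDegree_lt, map_zero]
        rw [(hPm j.1 j.2).2]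
        have h1 := hoff j.1 j.2
        omega
      · rfl
  have hUT : ∀ i l : Fin (3 * m), (U * TA_T A B C' m) i l =
      TA_L A B C' m l.1 (Q i.1 * X ^ (l.1 - TA_off m l.1)) := by
    intro i l
    rw [Matrix.mul_apply]
    have hd : (Q i.1).natDegree < 3 * m := by rw [(hQ i.1 i.2).2]; exact i.2
    rw [TA_left (TA_L A B C' m l.1) (3 * m) (Q i.1) (X ^ (l.1 - TA_off m l.1)) hd]
    apply Finset.sum_congr rfl
    intro k _
    rw [hU]
    unfold TA_T
    rw [Matrix.of_apply, pow_add]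
  have hG : (Matrix.of fun i j : Fin (3 * m) =>
      if j.1 < m then A (Q i.1 * P j.1) else if j.1 < 2 * m then B (Q i.1 * P' (j.1 - m))
      else C' (Q i.1 * P'' (j.1 - 2 * m))) = U * TA_T A B C' m * W := by
    ext i j
    rw [Matrix.mul_apply, Matrix.of_apply]
    simp only [hUT, hW]
    have hd : (PP j.1).natDegree < m := by
      rw [(hPm j.1 j.2).2]
      have h1 := hoff j.1 j.2
      omega
    rw [TA_block A B C' m (TA_off m j.1) (by unfold TA_off; split_ifs <;> simp) (TA_L A B C' m j.1)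
      (by
        intro l hl h
        unfold TA_off at h
        unfold TA_L
        have hj := j.2
        by_cases h1 : l < m
        · rw [if_pos h1]
          have h2 : j.1 < m := by split_ifs at h <;> omega
          rw [if_pos h2]
        · by_cases h3 : l < 2 * m
          · rw [if_neg h1, if_pos h3]
            have h2 : ¬ j.1 < m ∧ j.1 < 2 * m := by split_ifs at h <;> omega
            rw [if_neg h2.1, if_pos h2.2]
          · rw [if_neg h1, if_neg h3]
            have h2 : ¬ j.1 < m ∧ ¬ j.1 < 2 * m := by split_ifs at h <;> omega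
            rw [if_neg h2.1, if_neg h2.2]) (Q i.1) (PP j.1) hd, hPP]
    unfold TA_L
    split_ifs <;> rfl
  rw [hG, Matrix.det_mul, Matrix.det_mul, hUdet, hWdet, one_mul, mul_one, TA_T_eq]

theorem t_A1_monic : St_A1_monic :=
  fun A B C' m Q P P' P'' hQ hP hP' hP'' => TA_gen A B C' m Q P P' P'' hQ hP hP' hP''

theorem t_A1_real : St_A1_real := by
  intro A B C' θ₁ θ₂ m Q P P' hQ hP hP'
  let A' : ℚ[X] →ₗ[ℚ] ℝ :=
    { toFun := fun F => ((A F : ℚ) : ℝ) + θ₁ * ((B F : ℚ) : ℝ) + θ₂ * ((C' F : ℚ) : ℝ)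
      map_add' := fun F G => by rw [map_add, map_add, map_add]; push_cast; ring
      map_smul' := fun c F => by
        rw [map_smul, map_smul, map_smul, smul_eq_mul, smul_eq_mul, smul_eq_mul, RingHom.id_apply, Rat.smul_def]
        push_cast
        ring }
  let B' : ℚ[X] →ₗ[ℚ] ℝ :=
    { toFun := fun F => ((B F : ℚ) : ℝ)
      map_add' := fun F G => by rw [map_add]; push_cast; ring
      map_smul' := fun c F => by
        rw [map_smul, smul_eq_mul, RingHom.id_apply, Rat.smul_def]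
        push_cast
        ring }
  let C'' : ℚ[X] →ₗ[ℚ] ℝ :=
    { toFun := fun F => ((C' F : ℚ) : ℝ)
      map_add' := fun F G => by rw [map_add]; push_cast; ring
      map_smul' := fun c F => by
        rw [map_smul, smul_eq_mul, RingHom.id_apply, Rat.smul_def]
        push_cast
        ring }
  have hA' : ∀ F, A' F = ((A F : ℚ) : ℝ) + θ₁ * ((B F : ℚ) : ℝ) + θ₂ * ((C' F : ℚ) : ℝ) := fun _ => rfl
  have hB' : ∀ F, B' F = ((B F : ℚ) : ℝ) := fun _ => rfl
  have hC' : ∀ F, C'' F = ((C' F : ℚ) : ℝ) := fun _ => rfl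
  have h1 := TA_gen A' B' C'' m Q P P' P' hQ hP hP' hP'
  simp only [hA', hB', hC'] at h1
  rw [h1]
  obtain ⟨L, hL⟩ : ∃ L : Matrix (Fin (3 * m)) (Fin (3 * m)) ℝ, ∀ l j, L l j =
    if l.1 = j.1 then 1 else (if j.1 < m then (if l.1 = j.1 + m then θ₁ else
      (if l.1 = j.1 + 2 * m then θ₂ else 0)) else 0) := ⟨_, fun _ _ => rfl⟩
  obtain ⟨T, hT⟩ : ∃ T : Matrix (Fin (3 * m)) (Fin (3 * m)) ℚ, T = Matrix.of fun i j =>
      if j.1 < m then A (X ^ (i.1 + j.1)) else if j.1 < 2 * m then B (X ^ (i.1 + (j.1 - m)))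
      else C' (X ^ (i.1 + (j.1 - 2 * m))) := ⟨_, rfl⟩
  have hLdet : L.det = 1 := by
    rw [Matrix.det_of_isLowerTriangular]
    · apply Finset.prod_eq_one
      intro i _
      rw [hL, if_pos rfl]
    · intro i j hij
      have hij' : i.1 < j.1 := hij
      rw [hL, if_neg (by omega)]
      split_ifs <;> first | rfl | omega
  have hG : (Matrix.of fun i j : Fin (3 * m) =>
      if j.1 < m then ((A (X ^ (i.1 + j.1)) : ℚ) : ℝ) + θ₁ * ((B (X ^ (i.1 + j.1)) : ℚ) : ℝ) +
        θ₂ * ((C' (X ^ (i.1 + j.1)) : ℚ) : ℝ)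
      else if j.1 < 2 * m then ((B (X ^ (i.1 + (j.1 - m))) : ℚ) : ℝ)
      else ((C' (X ^ (i.1 + (j.1 - 2 * m))) : ℚ) : ℝ)) = T.map (Rat.castHom ℝ) * L := by
    ext i j
    rw [Matrix.of_apply, Matrix.mul_apply]
    by_cases h : j.1 < m
    · obtain ⟨j', hj'⟩ : ∃ j' : Fin (3 * m), j'.1 = j.1 + m := ⟨⟨j.1 + m, by omega⟩, rfl⟩
      obtain ⟨j'', hj''⟩ : ∃ j'' : Fin (3 * m), j''.1 = j.1 + 2 * m := ⟨⟨j.1 + 2 * m, by omega⟩, rfl⟩
      have hne : j ≠ j' := by
        intro e
        have := congrArg Fin.val e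
        omega
      have hne2 : j ≠ j'' := by
        intro e
        have := congrArg Fin.val e
        omega
      have hne3 : j' ≠ j'' := by
        intro e
        have := congrArg Fin.val e
        omega
      rw [if_pos h]
      have hsub : ∑ l : Fin (3 * m), T.map (Rat.castHom ℝ) i l * L l j =
          ∑ l ∈ ({j, j', j''} : Finset (Fin (3 * m))), T.map (Rat.castHom ℝ) i l * L l j := by
        symm
        apply Finset.sum_subset (Finset.subset_univ _)
        intro l _ hl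
        simp only [Finset.mem_insert, Finset.mem_singleton, not_or] at hl
        rw [hL, if_neg (fun e => hl.1 (Fin.ext e)), if_pos h,
          if_neg (fun e => hl.2.1 (Fin.ext (by rw [hj']; exact e))),
          if_neg (fun e => hl.2.2 (Fin.ext (by rw [hj'']; exact e))), mul_zero]
      rw [hsub, Finset.sum_insert (by simp [hne, hne2]), Finset.sum_pair hne3]
      rw [hL, hL, hL, if_pos rfl, if_neg (by omega), if_pos h, if_pos hj', if_neg (by omega), if_pos h,
        if_neg (by omega), if_pos hj'', hT]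
      simp only [Matrix.map_apply, Matrix.of_apply]
      rw [if_pos h, if_neg (by omega : ¬ j'.1 < m), if_pos (by omega : j'.1 < 2 * m),
        if_neg (by omega : ¬ j''.1 < m), if_neg (by omega : ¬ j''.1 < 2 * m), hj', hj'',
        Nat.add_sub_cancel, Nat.add_sub_cancel]
      simp only [Rat.coe_castHom]
      ring
    · rw [if_neg h, Finset.sum_eq_single j]
      · rw [hL, if_pos rfl, hT, Matrix.map_apply, Matrix.of_apply, if_neg h, mul_one]
        split_ifs <;> rfl
      · intro l _ hl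
        rw [hL, if_neg (fun e => hl (Fin.ext e)), if_neg h, mul_zero]
      · intro h; exact absurd (Finset.mem_univ _) h
  rw [hG, Matrix.det_mul, hLdet, mul_one]
  have h2 := RingHom.map_det (Rat.castHom ℝ) T
  rw [RingHom.mapMatrix_apply] at h2
  rw [← h2]
  unfold MD
  rw [hT]
  rfl

/-- the coefficient matrix of the columns -/
def TA2_V {R C : Type} (m : ℕ) (e : R ≃ C ⊕ (C ⊕ C)) (P : C → ℚ[X]) : Matrix (Fin (3 * m)) R ℚ :=
  Matrix.of fun j s => Sum.elim (fun c => if TA_off m j.1 = 0 then algebraMap ℚ ℚ ((P c).coeff (j.1 - 0)) else 0)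
    (Sum.elim (fun c => if TA_off m j.1 = m then algebraMap ℚ ℚ ((P c).coeff (j.1 - m)) else 0)
      (fun c => if TA_off m j.1 = 2 * m then algebraMap ℚ ℚ ((P c).coeff (j.1 - 2 * m)) else 0)) (e s)

lemma TA2_W (A B C' : ℚ[X] →ₗ[ℚ] ℚ) (m : ℕ) {R C : Type} (e : R ≃ C ⊕ (C ⊕ C))
    (P : C → ℚ[X]) (hP : ∀ c, (P c).natDegree < m) (i : Fin (3 * m)) (s : R) :
    (TA_T A B C' m * TA2_V m e P) i s =
      Sum.elim (fun c => A (X ^ i.1 * P c)) (Sum.elim (fun c => B (X ^ i.1 * P c))
        (fun c => C' (X ^ i.1 * P c))) (e s) := by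
  rw [Matrix.mul_apply]
  unfold TA2_V TA_T
  simp only [Matrix.of_apply, pow_add]
  have hm : 0 < m := by have := i.2; omega
  rcases e s with c | c | c
  · simp only [Sum.elim_inl]
    exact TA_block A B C' m 0 (Or.inl rfl) A (by
      intro l hl h
      unfold TA_off at h
      unfold TA_L
      rw [if_pos (by split_ifs at h <;> omega)]) (X ^ i.1) (P c) (hP c)
  · simp only [Sum.elim_inr, Sum.elim_inl]
    exact TA_block A B C' m m (Or.inr (Or.inl rfl)) B (by
      intro l hl h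
      unfold TA_off at h
      unfold TA_L
      rw [if_neg (by split_ifs at h <;> omega), if_pos (by split_ifs at h <;> omega)]) (X ^ i.1) (P c) (hP c)
  · simp only [Sum.elim_inr]
    exact TA_block A B C' m (2 * m) (Or.inr (Or.inr rfl)) C' (by
      intro l hl h
      unfold TA_off at h
      unfold TA_L
      rw [if_neg (by split_ifs at h <;> omega), if_neg (by split_ifs at h <;> omega)]) (X ^ i.1) (P c) (hP c)

lemma TA2_left (L : ℚ[X] →ₗ[ℚ] ℚ) (N : ℕ) (Q P : ℚ[X]) (h : Q.natDegree < N) :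
    L (Q * P) = ∑ i : Fin N, Q.coeff i.1 * L (X ^ i.1 * P) := by
  rw [TA_left L N Q P h]
  rfl

lemma TA2_fac (A B C' : ℚ[X] →ₗ[ℚ] ℚ) (m : ℕ) {R C : Type} (e : R ≃ C ⊕ (C ⊕ C))
    (Q : R → ℚ[X]) (P : C → ℚ[X]) (hQ : ∀ r, (Q r).natDegree < 3 * m)
    (hP : ∀ c, (P c).natDegree < m) :
    (Matrix.of fun r s : R => Sum.elim (fun c => A (Q r * P c))
      (Sum.elim (fun c => B (Q r * P c)) (fun c => C' (Q r * P c))) (e s)) =
      (Matrix.of fun (r : R) (i : Fin (3 * m)) => (Q r).coeff i.1) * (TA_T A B C' m * TA2_V m e P) := by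
  ext r s
  rw [Matrix.mul_apply]
  simp only [TA2_W A B C' m e P hP, Matrix.of_apply]
  rcases e s with c | c | c
  · simp only [Sum.elim_inl]
    exact TA2_left A (3 * m) (Q r) (P c) (hQ r)
  · simp only [Sum.elim_inr, Sum.elim_inl]
    exact TA2_left B (3 * m) (Q r) (P c) (hQ r)
  · simp only [Sum.elim_inr]
    exact TA2_left C' (3 * m) (Q r) (P c) (hQ r)

theorem t_A2_ne : St_A2_ne := by
  intro A B C' m R C _ _ _ _ e hR hC Q P hQ hP h h0
  apply h
  unfold MD at h0
  have eR : R ≃ Fin (3 * m) := Fintype.equivFinOfCardEq hR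
  rw [← TA_T_eq] at h0
  rw [← Matrix.det_submatrix_equiv_self eR.symm, TA2_fac A B C' m e Q P hQ hP, ← Matrix.mul_assoc,
    Matrix.submatrix_mul _ _ eR.symm (Equiv.refl (Fin (3 * m))) eR.symm (Equiv.refl _).bijective,
    Matrix.submatrix_mul _ _ eR.symm (Equiv.refl (Fin (3 * m))) (Equiv.refl (Fin (3 * m)))
      (Equiv.refl _).bijective, Matrix.det_mul, Matrix.det_mul, Matrix.det_submatrix_equiv_self,
    h0, mul_zero, zero_mul]

end

end Pool.Agent.Run7.h851.T
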