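import Pool.Agent.Run7.h851.T.Iface
import Pool.Agent.H337R2.Asym

/-!
# Piece T-PM of project T (helper851): `P_main` and `P_large` (port of `Pool/Agent/Dim7/PM.lean`)
-/

open Polynomial Pool.Agent.H337R2 Filter Topology

namespace Pool.Agent.Run7.h851.T

noncomputable section

namespace TPM

lemma fac_pos (p N : ℕ) (hp : p.Prime) : 0 < ((padicNorm p ((N.factorial : ℕ) : ℚ) : ℚ) : ℝ) := by
  have : Fact p.Prime := ⟨hp⟩
  have : 0 < padicNorm p ((N.factorial : ℕ) : ℚ) :=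
    lt_of_le_of_ne (padicNorm.nonneg _) (Ne.symm (padicNorm.nonzero (by exact_mod_cast Nat.factorial_ne_zero N)))
  exact_mod_cast this

lemma z_pos (p : ℕ) (hp : p.Prime) (z : ℚ) (hz : z ≠ 0) : 0 < ((padicNorm p z : ℚ) : ℝ) := by
  have : Fact p.Prime := ⟨hp⟩
  have : 0 < padicNorm p z := lt_of_le_of_ne (padicNorm.nonneg _) (Ne.symm (padicNorm.nonzero hz))
  exact_mod_cast this

lemma small (hmed : St_D4_small_med) (hcrude : St_D4_small_crude) (n p : ℕ) (hn : 1 ≤ n) (hp : p.Prime) (q : ℕ)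
    (α β γ : ℕ → ℚ) (hα : UInt q α) (hβ : UInt q β) (hγ : UInt q γ) (hβ3 : ∀ i < 3, β i = 0)
    (hγ5 : ∀ i < 5, γ i = 0)
    (hz : (q : ℚ) ^ (72 * n - 72) * DD n α β γ ≠ 0) :
    Real.log ((padicNorm p ((q : ℚ) ^ (72 * n - 72) * DD n α β γ) : ℚ) : ℝ) ≤
      72 * (n : ℝ) * ((if p ^ 2 ≤ 144 * n then 144 * Real.log (144 * n + 1) else 0) + 64 * Real.log p) +
      (∑ i ∈ Finset.range (72 * n - 72), Real.log ((padicNorm p (((2 * i - 1).factorial : ℕ) : ℚ) : ℚ) : ℝ) +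
       3 * ∑ i ∈ Finset.range (24 * n - 24), Real.log ((padicNorm p (((2 * i - 1).factorial : ℕ) : ℚ) : ℚ) : ℝ)) := by
  have hF : Fact p.Prime := ⟨hp⟩
  have hp0 : (0 : ℝ) < p := by exact_mod_cast hp.pos
  have hlp : 0 ≤ Real.log p := Real.log_nonneg (by exact_mod_cast hp.one_lt.le)
  have hn0 : (0 : ℝ) ≤ n := by positivity
  have hl : 0 ≤ Real.log (144 * (n : ℝ) + 1) := Real.log_nonneg (by linarith)
  have hzp := z_pos p hp _ hz
  have e8 : 72 * n - 72 = 3 * (24 * n - 24) := by omega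
  rw [e8] at hzp ⊢
  have hm : ((3 * (24 * n - 24) : ℕ) : ℝ) ≤ 72 * n := by
    have : 3 * (24 * n - 24) ≤ 72 * n := by omega
    exact_mod_cast this
  have hpp : 0 < (∏ i ∈ Finset.range (3 * (24 * n - 24)), ((padicNorm p (((2 * i - 1).factorial : ℕ) : ℚ) : ℚ) : ℝ)) *
        ∏ i ∈ Finset.range (24 * n - 24), ((padicNorm p (((2 * i - 1).factorial : ℕ) : ℚ) : ℚ) : ℝ) ^ 3 :=
    mul_pos (Finset.prod_pos fun i _ => fac_pos p _ hp)
      (Finset.prod_pos fun i _ => pow_pos (fac_pos p _ hp) 3)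
  have hprod : Real.log ((∏ i ∈ Finset.range (3 * (24 * n - 24)), ((padicNorm p (((2 * i - 1).factorial : ℕ) : ℚ) : ℚ) : ℝ)) *
        ∏ i ∈ Finset.range (24 * n - 24), ((padicNorm p (((2 * i - 1).factorial : ℕ) : ℚ) : ℚ) : ℝ) ^ 3)
      = ∑ i ∈ Finset.range (3 * (24 * n - 24)), Real.log ((padicNorm p (((2 * i - 1).factorial : ℕ) : ℚ) : ℚ) : ℝ) +
       3 * ∑ i ∈ Finset.range (24 * n - 24), Real.log ((padicNorm p (((2 * i - 1).factorial : ℕ) : ℚ) : ℚ) : ℝ) := by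
    rw [Real.log_mul (Finset.prod_pos fun i _ => fac_pos p _ hp).ne'
      (Finset.prod_pos fun i _ => pow_pos (fac_pos p _ hp) 3).ne',
      Real.log_prod (fun i _ => (fac_pos p _ hp).ne'),
      Real.log_prod (fun i _ => (pow_pos (fac_pos p _ hp) 3).ne'), Finset.mul_sum]
    congr 1
    apply Finset.sum_congr rfl
    intro i _
    rw [Real.log_pow]
    norm_num
  by_cases h2 : p ^ 2 ≤ 144 * n
  · rw [if_pos h2]
    have h3 : ((padicNorm p ((q : ℚ) ^ (3 * (24 * n - 24)) * DD n α β γ) : ℚ) : ℝ) ≤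
        ((144 * (n : ℝ) + 1) ^ 144) ^ (3 * (24 * n - 24)) *
        ((∏ i ∈ Finset.range (3 * (24 * n - 24)), ((padicNorm p (((2 * i - 1).factorial : ℕ) : ℚ) : ℚ) : ℝ)) *
        ∏ i ∈ Finset.range (24 * n - 24), ((padicNorm p (((2 * i - 1).factorial : ℕ) : ℚ) : ℚ) : ℝ) ^ 3) := by
      have h4 := (Rat.cast_le (K := ℝ)).2 (hcrude (p := p) hn q α β γ hα hβ hγ hβ3 hγ5 (24 * n - 24) (by omega))
      refine h4.trans (le_of_eq ?_)
      push_cast
      rfl
    have h5 := Real.log_le_log hzp h3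
    rw [Real.log_mul (by positivity) hpp.ne', hprod, Real.log_pow, Real.log_pow] at h5
    have e2 : ((144 : ℕ) : ℝ) = 144 := by norm_num
    rw [e2] at h5
    have h4 : ((3 * (24 * n - 24) : ℕ) : ℝ) * (144 * Real.log (144 * (n : ℝ) + 1)) ≤
        72 * n * (144 * Real.log (144 * (n : ℝ) + 1)) :=
      mul_le_mul_of_nonneg_right hm (by positivity)
    have h6 : 0 ≤ 72 * (n : ℝ) * (64 * Real.log p) := by positivity
    have e3 : 72 * (n : ℝ) * (144 * Real.log (144 * (n : ℝ) + 1) + 64 * Real.log p) =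
      72 * n * (144 * Real.log (144 * (n : ℝ) + 1)) + 72 * (n : ℝ) * (64 * Real.log p) := by ring
    rw [e3]
    linarith
  · rw [if_neg h2]
    have h3 : ((padicNorm p ((q : ℚ) ^ (3 * (24 * n - 24)) * DD n α β γ) : ℚ) : ℝ) ≤
        ((p : ℝ) ^ 64) ^ (3 * (24 * n - 24)) *
        ((∏ i ∈ Finset.range (3 * (24 * n - 24)), ((padicNorm p (((2 * i - 1).factorial : ℕ) : ℚ) : ℚ) : ℝ)) *
        ∏ i ∈ Finset.range (24 * n - 24), ((padicNorm p (((2 * i - 1).factorial : ℕ) : ℚ) : ℚ) : ℝ) ^ 3) := by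
      have h4 := (Rat.cast_le (K := ℝ)).2 (hmed (p := p) hn (by omega) q α β γ hα hβ hγ hβ3 hγ5 (24 * n - 24) (by omega))
      refine h4.trans (le_of_eq ?_)
      push_cast
      rfl
    have h5 := Real.log_le_log hzp h3
    rw [Real.log_mul (by positivity) hpp.ne', hprod, Real.log_pow, Real.log_pow] at h5
    have e2 : ((64 : ℕ) : ℝ) = 64 := by norm_num
    rw [e2] at h5
    have h4 : ((3 * (24 * n - 24) : ℕ) : ℝ) * (64 * Real.log p) ≤ 72 * n * (64 * Real.log p) :=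
      mul_le_mul_of_nonneg_right hm (by positivity)
    rw [zero_add]
    linarith

/-- statement of `E4_padic` with a constant -/
def E4 (K0 : ℝ) : Prop := ∀ n : ℕ, 200 ≤ n → ∀ p : ℕ, p.Prime → n < 50 * p → 144 * n < p ^ 2 →
    ∀ (q : ℕ) (α β γ : ℕ → ℚ), UInt q α → UInt q β → UInt q γ → (∀ i < 3, β i = 0) →
    (∀ i < 5, γ i = 0) →
    ((padicNorm p ((q : ℚ) ^ (72 * n - 72) * DD n α β γ) : ℚ) : ℝ) ≤
      if p < 4 * n then (p : ℝ) ^ (EW n p + K0) else 1

lemma log_large (K0 : ℝ) (hE4 : E4 K0) (n : ℕ) (hn : 400000 ≤ n) (p : ℕ) (hp : p.Prime)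
    (h50 : ¬ 50 * p ≤ n) (q : ℕ) (α β γ : ℕ → ℚ) (hα : UInt q α) (hβ : UInt q β) (hγ : UInt q γ) (hβ3 : ∀ i < 3, β i = 0)
    (hγ5 : ∀ i < 5, γ i = 0)
    (hz : (q : ℚ) ^ (72 * n - 72) * DD n α β γ ≠ 0) :
    Real.log ((padicNorm p ((q : ℚ) ^ (72 * n - 72) * DD n α β γ) : ℚ) : ℝ) ≤
      if p < 4 * n then (EW n p + K0) * Real.log p else 0 := by
  have hp0 : (0 : ℝ) < p := by exact_mod_cast hp.pos
  have h1 := hE4 n (by omega) p hp (by omega) (by nlinarith) q α β γ hα hβ hγ hβ3 hγ5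
  have h2 := Real.log_le_log (z_pos p hp _ hz) h1
  refine h2.trans (le_of_eq ?_)
  split_ifs
  · rw [Real.log_rpow hp0]
  · rw [Real.log_one]

lemma EW_split (n : ℕ) (hn : 7 ≤ n) (K0 : ℝ) (hK0 : 0 ≤ K0) :
    ∑ p ∈ ((Finset.range (4 * n)).filter Nat.Prime).filter (fun p => ¬ 50 * p ≤ n), (EW n p + K0) * Real.log p ≤
      ∑ p ∈ PS (1 / 50) (4 / 3) n, EA n p * Real.log p + ∑ p ∈ PS (4 / 3) 4 n, EB n p * Real.log p +
        K0 * (Real.log 4 * (4 * n)) := by
  classical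
  have hn0 : (0 : ℝ) < n := by exact_mod_cast (by omega : 0 < n)
  simp only [add_mul, Finset.sum_add_distrib]
  apply add_le_add
  · apply le_of_eq
    set T := ((Finset.range (4 * n)).filter Nat.Prime).filter (fun p => ¬ 50 * p ≤ n) with hT
    have hnp4 : ∀ p : ℕ, p.Prime → 3 * p ≠ 4 * n := by
      intro p hp h
      have h1 : 2 ∣ p := by
        have h2 : 2 ∣ 3 * p := ⟨2 * n, by omega⟩
        exact (Nat.Coprime.dvd_of_dvd_mul_left (by norm_num) h2)
      have h3 : p = 2 := ((Nat.prime_dvd_prime_iff_eq Nat.prime_two hp).1 h1).symm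
      omega
    have e1 : PS (1 / 50) (4 / 3) n = T.filter (fun p => 3 * p ≤ 4 * n) := by
      ext p
      unfold PS
      rw [hT]
      simp only [Finset.mem_filter, Finset.mem_range]
      constructor
      · rintro ⟨h1, h2, h3, h4⟩
        have h5 : n < 50 * p := by
          have : (n : ℝ) < 50 * p := by linarith
          exact_mod_cast this
        have h6 : 3 * p < 4 * n := by
          have : (3 : ℝ) * p < 4 * n := by linarith
          exact_mod_cast this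
        exact ⟨⟨⟨by omega, h2⟩, by omega⟩, h6.le⟩
      · rintro ⟨⟨⟨h1, h2⟩, h3⟩, h4⟩
        have h5 : 3 * p < 4 * n := lt_of_le_of_ne h4 (hnp4 p h2)
        refine ⟨by omega, h2, ?_, ?_⟩
        · have : (n : ℝ) < 50 * p := by exact_mod_cast (by omega : n < 50 * p)
          linarith
        · have : (3 : ℝ) * p < 4 * n := by exact_mod_cast h5
          linarith
    have e3 : PS (4 / 3) 4 n = T.filter (fun p => ¬ 3 * p ≤ 4 * n) := by
      ext p
      unfold PS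
      rw [hT]
      simp only [Finset.mem_filter, Finset.mem_range]
      constructor
      · rintro ⟨h1, h2, h3, h4⟩
        have h5 : 4 * n < 3 * p := by
          have : (4 : ℝ) * n < 3 * p := by linarith
          exact_mod_cast this
        have h6 : p < 4 * n := by exact_mod_cast h4
        exact ⟨⟨⟨by omega, h2⟩, by omega⟩, by omega⟩
      · rintro ⟨⟨⟨h1, h2⟩, h3⟩, h4⟩
        refine ⟨by omega, h2, ?_, by exact_mod_cast h1⟩
        have : (4 : ℝ) * n < 3 * p := by exact_mod_cast (by omega : 4 * n < 3 * p)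
        linarith
    rw [e1, e3, ← Finset.sum_filter_add_sum_filter_not T (fun p => 3 * p ≤ 4 * n)]
    congr 1
    · apply Finset.sum_congr rfl
      intro p hp
      rw [Finset.mem_filter] at hp
      unfold EW
      rw [if_pos hp.2]
    · apply Finset.sum_congr rfl
      intro p hp
      rw [Finset.mem_filter] at hp
      unfold EW
      rw [if_neg hp.2]
  · rw [← Finset.mul_sum]
    apply mul_le_mul_of_nonneg_left _ hK0
    refine le_trans ?_ (Chebyshev.theta_le_log4_mul_x (x := 4 * n) (by positivity))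
    unfold Chebyshev.theta
    apply Finset.sum_le_sum_of_subset_of_nonneg
    · intro p hp
      rw [Finset.mem_filter, Finset.mem_filter, Finset.mem_range] at hp
      rw [Finset.mem_filter, Finset.mem_Ioc]
      refine ⟨⟨hp.1.2.pos, ?_⟩, hp.1.2⟩
      rw [Nat.le_floor_iff (by positivity)]
      have : ((p : ℕ) : ℝ) ≤ ((4 * n : ℕ) : ℝ) := by exact_mod_cast hp.1.1.le
      push_cast at this
      exact this
    · intro p hp _
      rw [Finset.mem_filter] at hp
      exact Real.log_nonneg (by exact_mod_cast hp.2.one_lt.le)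

lemma ev {f : ℕ → ℝ} {L : ℝ} (h : Tendsto (fun n : ℕ => f n / (n : ℝ) ^ 2) atTop (𝓝 L)) (ε : ℝ)
    (hε : 0 < ε) : ∀ᶠ n : ℕ in atTop, f n ≤ (L + ε) * (n : ℝ) ^ 2 := by
  filter_upwards [h.eventually_lt_const (show L < L + ε by linarith), eventually_ge_atTop 1] with n h1 hn
  have hn0 : (0 : ℝ) < (n : ℝ) ^ 2 := by
    have : (0 : ℝ) < n := by exact_mod_cast hn
    positivity
  rw [div_lt_iff₀ hn0] at h1
  exact h1.le

lemma log3 : 84 * Real.log 2 ≤ 53 * Real.log 3 := by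
  have h1 : Real.log ((2 : ℝ) ^ 84) ≤ Real.log ((3 : ℝ) ^ 53) :=
    Real.log_le_log (by positivity) (by norm_num)
  rw [Real.log_pow, Real.log_pow] at h1
  push_cast at h1
  exact h1

lemma log5 : 65 * Real.log 2 ≤ 28 * Real.log 5 := by
  have h1 : Real.log ((2 : ℝ) ^ 65) ≤ Real.log ((5 : ℝ) ^ 28) :=
    Real.log_le_log (by positivity) (by norm_num)
  rw [Real.log_pow, Real.log_pow] at h1
  push_cast at h1
  exact h1

end TPM

/-- **the p-adic part**, from the results of the other tasks -/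
theorem P_main_of (hmed : St_D4_small_med) (hcrude : St_D4_small_crude) (hE4 : St_E4_padic) (hA : St_F2_A)
    (hB : St_F2_B) (hU : St_F2_U) (h3 : St_F3_numeric) (h4 : St_F4_small) (h5 : St_F5_fact)
    (h6 : St_F6_superfac) : St_P_main := by
  classical
  intro q α β γ hα hβ hγ hβ3 hγ5
  obtain ⟨K0, hK0, hE4'⟩ := hE4
  have hF3 : ((LA : ℝ) + LB + LU) ≤ 2330200 / 100 := by
    have h := (Rat.cast_le (K := ℝ)).2 h3
    push_cast at h
    exact h
  have hε : (0 : ℝ) < 1 / 200 := by norm_num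
  have ev2 := TPM.ev hA (1 / 200) hε
  have ev3 := TPM.ev hB (1 / 200) hε
  have ev5 := TPM.ev hU (1 / 200) hε
  have ev6 := h4 (1 / 200) hε
  have ev8 := h6 (1 / 200) hε
  have ev9 : ∀ᶠ n : ℕ in atTop, K0 * (Real.log 4 * 4) ≤ 1 / 200 * n := by
    have := (tendsto_natCast_atTop_atTop (R := ℝ)).const_mul_atTop hε
    exact this.eventually_ge_atTop _
  filter_upwards [ev2, ev3, ev5, ev6, h5, ev8, ev9, eventually_ge_atTop 400000]
    with n g2 g3 g5 g6 g7 g8 g9 hn hD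
  have hn0 : (0 : ℝ) < n := by exact_mod_cast (by omega : 0 < n)
  have hn1 : 1 ≤ n := by omega
  have hqq : (0 : ℚ) < q := by exact_mod_cast hα.1
  have hz : (q : ℚ) ^ (72 * n - 72) * DD n α β γ ≠ 0 := mul_ne_zero (pow_pos hqq _).ne' hD
  rw [← Finset.sum_filter_add_sum_filter_not _ (fun p => 50 * p ≤ n)]
  have e1 : ((Finset.range (144 * n + 1)).filter Nat.Prime).filter (fun p => 50 * p ≤ n) =
      (Finset.range (n + 1)).filter (fun p : ℕ => p.Prime ∧ 50 * p ≤ n) := by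
    ext p
    simp only [Finset.mem_filter, Finset.mem_range]
    constructor
    · rintro ⟨⟨h1, h2⟩, h3⟩; exact ⟨by omega, h2, h3⟩
    · rintro ⟨h1, h2, h3⟩; exact ⟨⟨by omega, h2⟩, h3⟩
  rw [e1]
  have hsmall : ∑ p ∈ (Finset.range (n + 1)).filter (fun p : ℕ => p.Prime ∧ 50 * p ≤ n),
      Real.log ((padicNorm p ((q : ℚ) ^ (72 * n - 72) * DD n α β γ) : ℚ) : ℝ) ≤
      72 * (n : ℝ) * (∑ p ∈ (Finset.range (n + 1)).filter (fun p : ℕ => p.Prime ∧ p ^ 2 ≤ 144 * n),
        144 * Real.log (144 * n + 1) +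
      ∑ p ∈ (Finset.range (n + 1)).filter (fun p : ℕ => p.Prime ∧ 50 * p ≤ n), 64 * Real.log p) +
      ∑ p ∈ (Finset.range (n + 1)).filter (fun p : ℕ => p.Prime ∧ 50 * p ≤ n),
      (∑ i ∈ Finset.range (72 * n - 72), Real.log ((padicNorm p (((2 * i - 1).factorial : ℕ) : ℚ) : ℚ) : ℝ) +
       3 * ∑ i ∈ Finset.range (24 * n - 24), Real.log ((padicNorm p (((2 * i - 1).factorial : ℕ) : ℚ) : ℚ) : ℝ)) := by
    calc _ ≤ ∑ p ∈ (Finset.range (n + 1)).filter (fun p : ℕ => p.Prime ∧ 50 * p ≤ n),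
          (72 * (n : ℝ) * ((if p ^ 2 ≤ 144 * n then 144 * Real.log (144 * n + 1) else 0) + 64 * Real.log p) +
          (∑ i ∈ Finset.range (72 * n - 72), Real.log ((padicNorm p (((2 * i - 1).factorial : ℕ) : ℚ) : ℚ) : ℝ) +
       3 * ∑ i ∈ Finset.range (24 * n - 24), Real.log ((padicNorm p (((2 * i - 1).factorial : ℕ) : ℚ) : ℚ) : ℝ))) := by
          apply Finset.sum_le_sum
          intro p hp
          rw [Finset.mem_filter] at hp
          exact TPM.small hmed hcrude n p hn1 hp.2.1 q α β γ hα hβ hγ hβ3 hγ5 hz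
      _ ≤ _ := by
          rw [Finset.sum_add_distrib, ← Finset.mul_sum, Finset.sum_add_distrib]
          apply add_le_add_left
          apply mul_le_mul_of_nonneg_left _ (by positivity)
          apply add_le_add_left
          rw [← Finset.sum_filter]
          apply Finset.sum_le_sum_of_subset_of_nonneg
          · intro p hp
            simp only [Finset.mem_filter, Finset.mem_range] at hp ⊢
            exact ⟨hp.1.1, hp.1.2.1, hp.2⟩
          · intro p _ _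
            have : 0 ≤ Real.log (144 * (n : ℝ) + 1) := Real.log_nonneg (by linarith)
            positivity
  have hlarge : ∑ p ∈ ((Finset.range (144 * n + 1)).filter Nat.Prime).filter (fun p => ¬ 50 * p ≤ n),
      Real.log ((padicNorm p ((q : ℚ) ^ (72 * n - 72) * DD n α β γ) : ℚ) : ℝ) ≤
      ∑ p ∈ PS (1 / 50) (4 / 3) n, EA n p * Real.log p + ∑ p ∈ PS (4 / 3) 4 n, EB n p * Real.log p +
        K0 * (Real.log 4 * (4 * n)) := by
    refine le_trans ?_ (TPM.EW_split n (by omega) K0 hK0)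
    have h1 : ∑ p ∈ ((Finset.range (144 * n + 1)).filter Nat.Prime).filter (fun p => ¬ 50 * p ≤ n),
        Real.log ((padicNorm p ((q : ℚ) ^ (72 * n - 72) * DD n α β γ) : ℚ) : ℝ) ≤
        ∑ p ∈ ((Finset.range (144 * n + 1)).filter Nat.Prime).filter (fun p => ¬ 50 * p ≤ n),
        (if p < 4 * n then (EW n p + K0) * Real.log p else 0) := by
      apply Finset.sum_le_sum
      intro p hp
      rw [Finset.mem_filter, Finset.mem_filter] at hp
      exact TPM.log_large K0 hE4' n hn p hp.1.2 hp.2 q α β γ hα hβ hγ hβ3 hγ5 hz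
    refine h1.trans (le_of_eq ?_)
    rw [← Finset.sum_filter]
    apply Finset.sum_congr _ fun _ _ => rfl
    ext p
    simp only [Finset.mem_filter, Finset.mem_range]
    constructor
    · rintro ⟨⟨⟨h1, h2⟩, h3⟩, h4⟩; exact ⟨⟨h4, h2⟩, h3⟩
    · rintro ⟨⟨h1, h2⟩, h3⟩; exact ⟨⟨⟨by omega, h2⟩, h3⟩, h1⟩
  have hfin : K0 * (Real.log 4 * (4 * n)) ≤ 1 / 200 * (n : ℝ) ^ 2 := by
    have := mul_le_mul_of_nonneg_right g9 hn0.le
    nlinarith
  have hn2 : (0 : ℝ) < (n : ℝ) ^ 2 := by positivity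
  have h200 : Real.log (200 / 3) = 3 * Real.log 2 + 2 * Real.log 5 - Real.log 3 := by
    rw [show (200 / 3 : ℝ) = 2 ^ 3 * 5 ^ 2 / 3 by norm_num, Real.log_div (by norm_num) (by norm_num),
      Real.log_mul (by norm_num) (by norm_num), Real.log_pow, Real.log_pow]
    push_cast; ring
  rw [h200] at g2
  have hl2 := Real.log_two_gt_d9
  have hl5 := TPM.log5
  have hl3 := TPM.log3
  have hconst : (2304 / 25 + 10368 + ((LA : ℝ) + LB + LU) - 29952 * Real.log 2 - 11328 * Real.log 3 -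
      1536 * Real.log 5 + 8 / 200) ≤ -1900 := by
    linarith
  have htot : (2304 / 25 + 10368 + ((LA : ℝ) + LB + LU) - 29952 * Real.log 2 - 11328 * Real.log 3 -
      1536 * Real.log 5 + 8 / 200) * (n : ℝ) ^ 2 ≤ -1900 * (n : ℝ) ^ 2 :=
    mul_le_mul_of_nonneg_right hconst hn2.le
  have g2' : ∑ p ∈ PS (1 / 50) (4 / 3) n, EA n p * Real.log p ≤
      (LA : ℝ) * (n : ℝ) ^ 2 - 2304 * Real.log 2 * (n : ℝ) ^ 2 - 1536 * Real.log 5 * (n : ℝ) ^ 2 +
        768 * Real.log 3 * (n : ℝ) ^ 2 + 1 / 200 * (n : ℝ) ^ 2 := by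
    refine g2.trans (le_of_eq ?_); ring
  have g3' : ∑ p ∈ PS (4 / 3) 4 n, EB n p * Real.log p ≤ (LB : ℝ) * (n : ℝ) ^ 2 + 1 / 200 * (n : ℝ) ^ 2 := by
    refine g3.trans (le_of_eq ?_); ring
  have g5' : ∑ p ∈ PS (1 / 50) 144 n,
      (∑ j ∈ Finset.Icc 1 7200, (1 / 2 * tn (144 * n) j p + 3 / 2 * tn (48 * n) j p)) * Real.log p ≤
      (LU : ℝ) * (n : ℝ) ^ 2 + 1 / 200 * (n : ℝ) ^ 2 := by
    refine g5.trans (le_of_eq ?_); ring
  have g8' : 6912 * (n : ℝ) ^ 2 * Real.log n + 27648 * Real.log 2 * (n : ℝ) ^ 2 +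
      12096 * Real.log 3 * (n : ℝ) ^ 2 - 10368 * (n : ℝ) ^ 2 - 1 / 200 * (n : ℝ) ^ 2 ≤
        ∑ i ∈ Finset.range (72 * n - 72), Real.log ((2 * i - 1).factorial : ℝ) +
         3 * ∑ i ∈ Finset.range (24 * n - 24), Real.log ((2 * i - 1).factorial : ℝ) := by
    refine le_trans (le_of_eq ?_) g8; ring
  have htot' : 2304 / 25 * (n : ℝ) ^ 2 + 10368 * (n : ℝ) ^ 2 + (LA : ℝ) * (n : ℝ) ^ 2 +
      (LB : ℝ) * (n : ℝ) ^ 2 +
      (LU : ℝ) * (n : ℝ) ^ 2 - 29952 * Real.log 2 * (n : ℝ) ^ 2 - 11328 * Real.log 3 * (n : ℝ) ^ 2 -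
      1536 * Real.log 5 * (n : ℝ) ^ 2 + 8 / 200 * (n : ℝ) ^ 2 ≤ -1900 * (n : ℝ) ^ 2 := by
    refine le_trans (le_of_eq ?_) htot; ring
  have hfinal := add_le_add hsmall hlarge
  refine hfinal.trans ?_
  linarith

/-- large primes, from `D3_large` -/
theorem P_large_of (h : St_D3_large) : St_P_large := by
  intro q α β γ hα hβ hγ hβ3 hγ5 n hn p hp h'
  have : Fact p.Prime := ⟨hp⟩
  have h1 := h (p := p) hn (by omega) q α β γ hα hβ hγ hβ3 hγ5 (24 * n - 24)
  have e : 3 * (24 * n - 24) = 72 * n - 72 := by omega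
  rw [e] at h1
  exact h1

/-- alias -/
theorem t_P_main_of : St_D4_small_med → St_D4_small_crude → St_E4_padic → St_F2_A → St_F2_B → St_F2_U →
    St_F3_numeric → St_F4_small → St_F5_fact → St_F6_superfac → St_P_main :=
  P_main_of

/-- alias -/
theorem t_P_large_of : St_D3_large → St_P_large := P_large_of

end

end Pool.Agent.Run7.h851.T
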